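import Mathlib
import Pool.Agent.KS6_18.T0

set_option autoImplicit false

/-!
# Artin's density with the correction factor for all but very few integers

Let `n = D m ^ 2` with `D ≡ 1 mod 4` squarefree, `D ≠ 1`; `P n x` is the number of the primes `p ≤ x`
with the primitive root `n` and `δ D` the density of the problem.

Let `θ, ε > 0` and `0 < C₁ ≤ C₂` be arbitrary.  For every large `N`, all `n` with `|n| ≤ N` such that
neither `|D|` lies in a set `F` of at most `(log N) ^ A` integers (all larger than `(log N) ^ B`) nor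
`n` in one of the classes `g y ^ l` (`g` in a set of at most `(log N) ^ A` integers, `l ≤ L` an odd prime,
`y` rational) satisfy `P n x ≤ (δ D + ε) π(x)` for ALL `x` in `[N ^ C₁, N ^ C₂]`; and all of them but
`N ^ θ` satisfy `P n x ≥ (δ D - ε) π(x)` for all these `x` but a set of logarithmic measure `ε log N`.

For squarefree `n` the conditions on `F` and on the classes exclude at most `(log N) ^ (A + 1)` integers.
-/

namespace Pool.Agent.Results.MP_991e92_nt.DensityFewExceptions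

open Finset

open Classical in
/-- the number of the primes `p ≤ x` modulo which `n` is a primitive root -/
noncomputable def P (n : ℤ) (x : ℕ) : ℕ :=
  ((Icc 1 x).filter (fun p : ℕ => p.Prime ∧ ¬ (p : ℤ) ∣ n ∧ orderOf (n : ZMod p) = p - 1)).card

/-- the density `(1 - μ(|D|) ∏_{q ∣ D} 1 / (q ^ 2 - q - 1)) ∏_p (1 - 1 / (p (p - 1)))` -/
noncomputable def δ (D : ℤ) : ℝ :=
  (1 - ((ArithmeticFunction.moebius D.natAbs : ℤ) : ℝ) *
      ∏ q ∈ D.natAbs.primeFactors, (1 / ((q : ℝ) ^ 2 - (q : ℝ) - 1))) *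
    ∏' p : Nat.Primes, (1 - 1 / (((p : ℕ) : ℝ) * (((p : ℕ) : ℝ) - 1)))

open Classical in
theorem result (θ ε C₁ C₂ : ℝ) (hθ : 0 < θ) (hε : 0 < ε) (hC₁ : 0 < C₁) (hC₂ : C₁ ≤ C₂) :
    ∃ L A : ℕ, ∀ B : ℕ, ∃ N₀ : ℕ, ∀ N : ℕ, N₀ ≤ N →
      ∃ (E : Finset ℤ) (F : Finset ℕ) (G : Finset ℤ),
        (E.card : ℝ) ≤ (N : ℝ) ^ θ ∧
        (F.card : ℝ) ≤ (Real.log N) ^ A ∧ (∀ b ∈ F, (Real.log N) ^ B < b) ∧
        (G.card : ℝ) ≤ (Real.log N) ^ A ∧ (∀ g ∈ G, g ≠ 0) ∧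
        ∀ n D m : ℤ, n = D * m ^ 2 → n ≠ 0 → n.natAbs ≤ N → Squarefree D → D % 4 = 1 → D ≠ 1 →
          D.natAbs ∉ F →
          (∀ g ∈ G, ∀ l : ℕ, l.Prime → 3 ≤ l → l ≤ L → ∀ y : ℚ, (n : ℚ) ≠ g * y ^ l) →
          (∀ x : ℕ, (N : ℝ) ^ C₁ ≤ x → (x : ℝ) ≤ (N : ℝ) ^ C₂ →
            (P n x : ℝ) ≤ (δ D + ε) * Nat.primeCounting x) ∧
          (n ∉ E → ∑ x ∈ (Icc ⌈(N : ℝ) ^ C₁⌉₊ ⌊(N : ℝ) ^ C₂⌋₊).filter (fun x : ℕ =>
              (P n x : ℝ) < (δ D - ε) * Nat.primeCounting x), 1 / (x : ℝ) ≤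
            ε * Real.log N) := by
  obtain ⟨z, A, h⟩ := Pool.Agent.KS6_18.t0 θ ε C₁ C₂ hθ hε hC₁ hC₂
  exact ⟨z, A, fun B => Filter.eventually_atTop.1 (h B)⟩

end Pool.Agent.Results.MP_991e92_nt.DensityFewExceptions
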